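import Pool.Agent.W203.BE.Stms

/-!
# BE-ITER: from one variable to `n` variables
-/

set_option autoImplicit false

open MeasureTheory Set Complex
open scoped ENNReal

namespace Pool.Agent.W290.BE

open Pool.Agent.W203.BE

/-- `Fin (n+1) → ℝ` is `ℝ × (Fin n → ℝ)` -/
noncomputable def cq (n : ℕ) : (ℝ × (Fin n → ℝ)) ≃ᵐ (Fin (n + 1) → ℝ) :=
  (MeasurableEquiv.piFinSuccAbove (fun _ : Fin (n + 1) => ℝ) 0).symm

lemma cq_apply {n : ℕ} (p : ℝ × (Fin n → ℝ)) : cq n p = Fin.cons p.1 p.2 := by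
  show (Fin.insertNth (α := fun _ => ℝ) 0 p.1 p.2 : Fin (n + 1) → ℝ) = _
  rw [Fin.insertNth_zero]
  rfl

lemma cq_mp (n : ℕ) : MeasurePreserving (cq n) :=
  (volume_preserving_piFinSuccAbove (fun _ : Fin (n + 1) => ℝ) 0).symm _

lemma lint_cons {n : ℕ} (G : (Fin (n + 1) → ℝ) → ℝ≥0∞) (hG : Measurable G) :
    ∫⁻ x, G x = ∫⁻ x' : Fin n → ℝ, ∫⁻ x0 : ℝ, G (Fin.cons x0 x') := by
  rw [← (cq_mp n).lintegral_comp hG, Measure.volume_eq_prod, lintegral_prod_symm]
  · simp only [cq_apply]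
  · exact (hG.comp (cq n).measurable).aemeasurable

lemma lint_cons' {n : ℕ} (G : (Fin (n + 1) → ℝ) → ℝ≥0∞) (hG : Measurable G) :
    ∫⁻ x, G x = ∫⁻ x0 : ℝ, ∫⁻ x' : Fin n → ℝ, G (Fin.cons x0 x') := by
  rw [← (cq_mp n).lintegral_comp hG, Measure.volume_eq_prod, lintegral_prod]
  · simp only [cq_apply]
  · exact (hG.comp (cq n).measurable).aemeasurable

lemma cons_mem {n : ℕ} (x0 : ℝ) (x' : Fin n → ℝ) :
    (Fin.cons x0 x' : Fin (n + 1) → ℝ) ∈ Icc (fun _ : Fin (n + 1) => (1 : ℝ)) (fun _ => 2) ↔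
      x' ∈ Icc (fun _ : Fin n => (1 : ℝ)) (fun _ => 2) ∧ x0 ∈ Icc (1 : ℝ) 2 := by
  constructor
  · rintro ⟨h1, h2⟩
    refine ⟨⟨fun j => ?_, fun j => ?_⟩, ?_, ?_⟩
    · simpa using h1 j.succ
    · simpa using h2 j.succ
    · simpa using h1 0
    · simpa using h2 0
  · rintro ⟨⟨h1, h2⟩, h3, h4⟩
    refine ⟨fun j => ?_, fun j => ?_⟩
    · refine Fin.cases ?_ (fun i => ?_) j
      · simpa using h3
      · simpa using h1 i
    · refine Fin.cases ?_ (fun i => ?_) j
      · simpa using h4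
      · simpa using h2 i

lemma measurable_cons2 {n : ℕ} :
    Measurable (fun p : ℝ × (Fin n → ℝ) => (Fin.cons p.1 p.2 : Fin (n + 1) → ℝ)) := by
  have h : (fun p : ℝ × (Fin n → ℝ) => (Fin.cons p.1 p.2 : Fin (n + 1) → ℝ)) = cq n := by
    funext p; rw [cq_apply]
  rw [h]; exact (cq n).measurable

/-- restricted version -/
lemma lint_cons_Icc {n : ℕ} (G : (Fin (n + 1) → ℝ) → ℝ≥0∞) (hG : Measurable G) :
    ∫⁻ x in Icc (fun _ : Fin (n + 1) => (1 : ℝ)) (fun _ => 2), G x
      = ∫⁻ x' in Icc (fun _ : Fin n => (1 : ℝ)) (fun _ => 2), ∫⁻ x0 in Icc (1 : ℝ) 2,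
          G (Fin.cons x0 x') := by
  rw [← lintegral_indicator measurableSet_Icc, lint_cons _ (hG.indicator measurableSet_Icc),
    ← lintegral_indicator measurableSet_Icc]
  refine lintegral_congr fun x' => ?_
  by_cases hx' : x' ∈ Icc (fun _ : Fin n => (1 : ℝ)) (fun _ => 2)
  · rw [indicator_of_mem hx', ← lintegral_indicator measurableSet_Icc]
    refine lintegral_congr fun x0 => ?_
    by_cases hx0 : x0 ∈ Icc (1 : ℝ) 2
    · rw [indicator_of_mem hx0, indicator_of_mem ((cons_mem x0 x').mpr ⟨hx', hx0⟩)]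
    · rw [indicator_of_notMem hx0, indicator_of_notMem (fun h => hx0 ((cons_mem x0 x').mp h).2)]
  · rw [indicator_of_notMem hx']
    have : ∀ x0 : ℝ, (Icc (fun _ : Fin (n + 1) => (1 : ℝ)) (fun _ => 2)).indicator G
        (Fin.cons x0 x') = 0 := fun x0 =>
      indicator_of_notMem (fun h => hx' ((cons_mem x0 x').mp h).1) _
    simp only [this, lintegral_zero]

lemma al_re_pos {κ a s : ℝ} (hκ : 0 < κ) (ha : 1 ≤ a) : 0 < (al κ a s).re := by
  unfold al
  have : 0 < a - 1 / 2 := by linarith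
  exact mul_pos hκ this

lemma measurable_al (κ s : ℝ) : Measurable (fun a : ℝ => al κ a s) := by
  have h : (fun a : ℝ => al κ a s)
      = fun a : ℝ => ((κ * (a - 1 / 2) : ℝ) : ℂ) + ((κ * (2 * Real.pi * a * s) : ℝ) : ℂ) * I := by
    funext a
    unfold al
    apply Complex.ext <;> simp
  rw [h]
  have h1 : Measurable (fun a : ℝ => ((κ * (a - 1 / 2) : ℝ) : ℂ)) :=
    Complex.measurable_ofReal.comp (by fun_prop)
  have h2 : Measurable (fun a : ℝ => ((κ * (2 * Real.pi * a * s) : ℝ) : ℂ)) :=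
    Complex.measurable_ofReal.comp (by fun_prop)
  exact h1.add (h2.mul_const _)

lemma gn_cons {n : ℕ} (α : Fin (n + 1) → ℂ) (x0 y0 : ℝ) (x' y' : Fin n → ℝ) :
    gn α ((Fin.cons x0 x' : Fin (n + 1) → ℝ) - Fin.cons y0 y')
      = g1 (α 0) (x0 - y0) * gn (fun j => α j.succ) (x' - y') := by
  unfold gn
  rw [Fin.prod_univ_succ]
  simp

/-- Fubini for the operator -/
lemma T_cons (hB : S_BASN) {n : ℕ} (α : Fin (n + 1) → ℂ) (hα : ∀ j, 0 < (α j).re)
    (f : (Fin (n + 1) → ℝ) → ℂ) (hf : Integrable f) (x0 : ℝ) (x' : Fin n → ℝ) :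
    T α f (Fin.cons x0 x' : Fin (n + 1) → ℝ)
      = T1 (α 0) (fun y0 => T (fun j => α j.succ) (fun y' => f (Fin.cons y0 y')) x') x0 := by
  obtain ⟨_, _, _, _, h5⟩ := hB (n + 1) α hα
  have hint := (h5 f hf).1 (Fin.cons x0 x' : Fin (n + 1) → ℝ)
  have e1 : T α f (Fin.cons x0 x' : Fin (n + 1) → ℝ)
      = ∫ p : ℝ × (Fin n → ℝ), gn α ((Fin.cons x0 x' : Fin (n + 1) → ℝ) - cq n p) * f (cq n p) :=
    ((cq_mp n).integral_comp' (g := fun y => gn α ((Fin.cons x0 x' : Fin (n + 1) → ℝ) - y) * f y)).symm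
  have hint2 : Integrable (fun p : ℝ × (Fin n → ℝ) =>
      gn α ((Fin.cons x0 x' : Fin (n + 1) → ℝ) - cq n p) * f (cq n p)) (volume.prod volume) := by
    have := (cq_mp n).integrable_comp_emb (cq n).measurableEmbedding
      (g := fun y => gn α ((Fin.cons x0 x' : Fin (n + 1) → ℝ) - y) * f y)
    rw [← Measure.volume_eq_prod]
    exact this.mpr hint
  rw [e1, Measure.volume_eq_prod, integral_prod _ hint2]
  unfold T1
  refine integral_congr_ae (Filter.Eventually.of_forall fun y0 => ?_)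
  simp only [cq_apply, gn_cons]
  unfold T
  rw [← integral_const_mul]
  refine integral_congr_ae (Filter.Eventually.of_forall fun y' => ?_)
  simp only
  ring

lemma meas_joint (hM : S_MEAS) (κ s : ℝ) {n : ℕ} (f : (Fin n → ℝ) → ℂ) (hf : Measurable f) :
    Measurable (fun q : (Fin n → ℝ) × (Fin n → ℝ) => T (fun j => al κ (q.1 j) s) f q.2) := by
  refine hM n (Fin n → ℝ) (fun a j => al κ (a j) s) (fun _ => f) ?_ ?_
  · exact measurable_pi_lambda _ (fun j => (measurable_al κ s).comp (measurable_pi_apply j))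
  · exact hf.comp measurable_snd

lemma meas_slice (hM : S_MEAS) (κ s : ℝ) {n : ℕ} (f : (Fin (n + 1) → ℝ) → ℂ) (hf : Measurable f) :
    Measurable (fun q : ((Fin n → ℝ) × ℝ) × (Fin n → ℝ) =>
      T (fun j => al κ (q.1.1 j) s) (fun y' => f (Fin.cons q.1.2 y')) q.2) := by
  refine hM n ((Fin n → ℝ) × ℝ) (fun q j => al κ (q.1 j) s) (fun q y' => f (Fin.cons q.2 y')) ?_ ?_
  · exact measurable_pi_lambda _
      (fun j => (measurable_al κ s).comp ((measurable_pi_apply j).comp measurable_fst))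
  · show Measurable (fun r : ((Fin n → ℝ) × ℝ) × (Fin n → ℝ) => f (Fin.cons r.1.2 r.2))
    exact hf.comp (measurable_cons2.comp
      ((measurable_snd.comp measurable_fst).prodMk measurable_snd))

/-- the slice functions are integrable in the first variable -/
lemma slice_int (hB : S_BASN) (hM : S_MEAS) {κ : ℝ} (hκ : 0 < κ) (s : ℝ) {n : ℕ}
    (f : (Fin (n + 1) → ℝ) → ℂ) (hf : Measurable f) (hfi : Integrable f) (a' : Fin n → ℝ)
    (ha' : ∀ j, 1 ≤ a' j) (x' : Fin n → ℝ) :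
    Measurable (fun y0 : ℝ => T (fun j => al κ (a' j) s) (fun y' => f (Fin.cons y0 y')) x') ∧
    Integrable (fun y0 : ℝ => T (fun j => al κ (a' j) s) (fun y' => f (Fin.cons y0 y')) x') := by
  refine ⟨?_, ?_⟩
  · have hh : Measurable (fun y0 : ℝ => (((a', y0), x') : ((Fin n → ℝ) × ℝ) × (Fin n → ℝ))) :=
      (measurable_const.prodMk measurable_id).prodMk measurable_const
    have h := (meas_slice hM κ s f hf).comp hh
    simp only [Function.comp_def] at h
    exact h
  · obtain ⟨hc, _, ⟨C, hC⟩, _, _⟩ := hB n (fun j => al κ (a' j) s)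
      (fun j => al_re_pos hκ (ha' j))
    have h1 : Integrable (fun p : ℝ × (Fin n → ℝ) => f (cq n p)) (volume.prod volume) := by
      rw [← Measure.volume_eq_prod]
      exact ((cq_mp n).integrable_comp_emb (cq n).measurableEmbedding).mpr hfi
    have h2 : Integrable (fun p : ℝ × (Fin n → ℝ) =>
        gn (fun j => al κ (a' j) s) (x' - p.2) * f (cq n p)) (volume.prod volume) := by
      refine h1.bdd_mul (c := C) ?_ (Filter.Eventually.of_forall fun p => hC _)
      exact (hc.comp (by fun_prop)).aestronglyMeasurable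
    have h3 := h2.integral_prod_left
    simp only [cq_apply] at h3
    exact h3

theorem iter : S_BAS → S_BASN → S_MEAS → S_ITER := by
  intro _ hB hM q hq κ s B hκ hBt hyp n
  induction n with
  | zero =>
    intro f hf hfi
    have hT : ∀ (a : Fin 0 → ℝ) (x : Fin 0 → ℝ), T (fun j => al κ (a j) s) f x = f x := by
      intro a x
      unfold T gn
      simp only [Finset.univ_eq_empty, Finset.prod_empty, one_mul]
      have : (volume : Measure (Fin 0 → ℝ)) = Measure.dirac x := by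
        rw [Measure.volume_pi_eq_dirac x]
      rw [this, integral_dirac]
    simp only [hT, pow_zero, one_mul]
    rw [setLIntegral_const]
    have hv : (volume : Measure (Fin 0 → ℝ))
        (Icc (fun _ : Fin 0 => (1 : ℝ)) (fun _ => 2)) = 1 := by
      rw [Real.volume_Icc_pi]
      simp
    rw [hv, mul_one]
  | succ n ih =>
    intro f hf hfi
    -- measurability
    have hΦ : Measurable (fun r : (Fin (n + 1) → ℝ) × (Fin (n + 1) → ℝ) =>
        ‖T (fun j => al κ (r.1 j) s) f r.2‖ₑ ^ q) := (meas_joint hM κ s f hf).enorm.pow_const q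
    have hΨ : Measurable (fun r : ((Fin n → ℝ) × ℝ) × (Fin n → ℝ) =>
        ‖T (fun j => al κ (r.1.1 j) s) (fun y' => f (Fin.cons r.1.2 y')) r.2‖ₑ ^ q) :=
      (meas_slice hM κ s f hf).enorm.pow_const q
    -- step 1: split the variables
    have e1 : ∫⁻ a in Icc (fun _ : Fin (n + 1) => (1 : ℝ)) (fun _ => 2),
        ∫⁻ x, ‖T (fun j => al κ (a j) s) f x‖ₑ ^ q
        = ∫⁻ a' in Icc (fun _ : Fin n => (1 : ℝ)) (fun _ => 2), ∫⁻ x' : Fin n → ℝ,
          ∫⁻ a0 in Icc (1 : ℝ) 2, ∫⁻ x0 : ℝ,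
            ‖T (fun j => al κ ((Fin.cons a0 a' : Fin (n + 1) → ℝ) j) s) f (Fin.cons x0 x')‖ₑ ^ q := by
      rw [lint_cons_Icc (fun a => ∫⁻ x, ‖T (fun j => al κ (a j) s) f x‖ₑ ^ q)
        hΦ.lintegral_prod_right']
      refine lintegral_congr fun a' => ?_
      have hin : ∀ a0 : ℝ, ∫⁻ x, ‖T (fun j => al κ ((Fin.cons a0 a' : Fin (n + 1) → ℝ) j) s) f x‖ₑ ^ q
          = ∫⁻ x' : Fin n → ℝ, ∫⁻ x0 : ℝ,
            ‖T (fun j => al κ ((Fin.cons a0 a' : Fin (n + 1) → ℝ) j) s) f (Fin.cons x0 x')‖ₑ ^ q :=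
        fun a0 => by
          have hh : Measurable (fun x : Fin (n + 1) → ℝ =>
              ((Fin.cons a0 a' : Fin (n + 1) → ℝ), x)) := measurable_const.prodMk measurable_id
          have h := hΦ.comp hh
          simp only [Function.comp_def] at h
          exact lint_cons (fun x => ‖T (fun j => al κ ((Fin.cons a0 a' : Fin (n + 1) → ℝ) j) s) f x‖ₑ ^ q)
            h
      simp only [hin]
      refine lintegral_lintegral_swap ?_
      refine Measurable.aemeasurable ?_
      have hmm : Measurable (fun r : (ℝ × (Fin n → ℝ)) × ℝ =>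
          ‖T (fun j => al κ ((Fin.cons r.1.1 a' : Fin (n + 1) → ℝ) j) s) f
            (Fin.cons r.2 r.1.2)‖ₑ ^ q) := by
        have hh1 : Measurable (fun r : (ℝ × (Fin n → ℝ)) × ℝ =>
            (Fin.cons r.1.1 a' : Fin (n + 1) → ℝ)) := by
          have h0 : Measurable (fun r : (ℝ × (Fin n → ℝ)) × ℝ => ((r.1.1, a') : ℝ × (Fin n → ℝ))) :=
            (measurable_fst.comp measurable_fst).prodMk measurable_const
          exact measurable_cons2.comp h0
        have hh2 : Measurable (fun r : (ℝ × (Fin n → ℝ)) × ℝ =>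
            (Fin.cons r.2 r.1.2 : Fin (n + 1) → ℝ)) := by
          have h0 : Measurable (fun r : (ℝ × (Fin n → ℝ)) × ℝ => ((r.2, r.1.2) : ℝ × (Fin n → ℝ))) :=
            measurable_snd.prodMk (measurable_snd.comp measurable_fst)
          exact measurable_cons2.comp h0
        have h := hΦ.comp (hh1.prodMk hh2)
        simp only [Function.comp_def] at h
        exact h
      exact hmm.lintegral_prod_right'
    rw [e1]
    -- step 2: the one-dimensional estimate
    have e2 : ∫⁻ a' in Icc (fun _ : Fin n => (1 : ℝ)) (fun _ => 2), ∫⁻ x' : Fin n → ℝ,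
          ∫⁻ a0 in Icc (1 : ℝ) 2, ∫⁻ x0 : ℝ,
            ‖T (fun j => al κ ((Fin.cons a0 a' : Fin (n + 1) → ℝ) j) s) f (Fin.cons x0 x')‖ₑ ^ q
        ≤ ∫⁻ a' in Icc (fun _ : Fin n => (1 : ℝ)) (fun _ => 2), ∫⁻ x' : Fin n → ℝ,
          B * ∫⁻ y0 : ℝ, ‖T (fun j => al κ (a' j) s) (fun y' => f (Fin.cons y0 y')) x'‖ₑ ^ q := by
      refine setLIntegral_mono' measurableSet_Icc fun a' ha' => ?_
      refine lintegral_mono fun x' => ?_
      have ha1 : ∀ j, 1 ≤ a' j := fun j => ha'.1 j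
      obtain ⟨m1, m2⟩ := slice_int hB hM hκ s f hf hfi a' ha1 x'
      refine le_trans (le_of_eq ?_) (hyp _ m1 m2)
      refine setLIntegral_congr_fun measurableSet_Icc fun a0 ha0 => ?_
      refine lintegral_congr fun x0 => ?_
      have hpos : ∀ j, 0 < (al κ ((Fin.cons a0 a' : Fin (n + 1) → ℝ) j) s).re := by
        intro j
        refine Fin.cases ?_ (fun i => ?_) j
        · simpa using al_re_pos hκ ha0.1
        · simpa using al_re_pos hκ (ha1 i)
      rw [T_cons hB (fun j => al κ ((Fin.cons a0 a' : Fin (n + 1) → ℝ) j) s) hpos f hfi x0 x']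
      simp only [Fin.cons_zero, Fin.cons_succ]
    refine e2.trans ?_
    -- step 3: exchange
    have e3 : ∫⁻ a' in Icc (fun _ : Fin n => (1 : ℝ)) (fun _ => 2), ∫⁻ x' : Fin n → ℝ,
          B * ∫⁻ y0 : ℝ, ‖T (fun j => al κ (a' j) s) (fun y' => f (Fin.cons y0 y')) x'‖ₑ ^ q
        = B * ∫⁻ y0 : ℝ, ∫⁻ a' in Icc (fun _ : Fin n => (1 : ℝ)) (fun _ => 2),
          ∫⁻ x' : Fin n → ℝ,
            ‖T (fun j => al κ (a' j) s) (fun y' => f (Fin.cons y0 y')) x'‖ₑ ^ q := by
      have hs : ∀ a' : Fin n → ℝ, ∫⁻ x' : Fin n → ℝ,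
          B * ∫⁻ y0 : ℝ, ‖T (fun j => al κ (a' j) s) (fun y' => f (Fin.cons y0 y')) x'‖ₑ ^ q
          = B * ∫⁻ y0 : ℝ, ∫⁻ x' : Fin n → ℝ,
            ‖T (fun j => al κ (a' j) s) (fun y' => f (Fin.cons y0 y')) x'‖ₑ ^ q := by
        intro a'
        rw [lintegral_const_mul' _ _ hBt]
        congr 1
        refine lintegral_lintegral_swap (Measurable.aemeasurable ?_)
        show Measurable (fun r : (Fin n → ℝ) × ℝ =>
          ‖T (fun j => al κ (a' j) s) (fun y' => f (Fin.cons r.2 y')) r.1‖ₑ ^ q)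
        have hh : Measurable (fun r : (Fin n → ℝ) × ℝ =>
            (((a', r.2), r.1) : ((Fin n → ℝ) × ℝ) × (Fin n → ℝ))) :=
          (measurable_const.prodMk measurable_snd).prodMk measurable_fst
        have h := hΨ.comp hh
        simp only [Function.comp_def] at h
        exact h
      simp only [hs]
      rw [lintegral_const_mul' _ _ hBt]
      congr 1
      refine lintegral_lintegral_swap (Measurable.aemeasurable ?_)
      show Measurable (fun r : (Fin n → ℝ) × ℝ => ∫⁻ x' : Fin n → ℝ,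
          ‖T (fun j => al κ (r.1 j) s) (fun y' => f (Fin.cons r.2 y')) x'‖ₑ ^ q)
      exact hΨ.lintegral_prod_right'
    rw [e3]
    -- step 4: induction hypothesis for almost every slice
    have hsl : ∀ᵐ y0 : ℝ, Integrable (fun y' : Fin n → ℝ => f (Fin.cons y0 y')) := by
      have h1 : Integrable (fun p : ℝ × (Fin n → ℝ) => f (cq n p)) (volume.prod volume) := by
        rw [← Measure.volume_eq_prod]
        exact ((cq_mp n).integrable_comp_emb (cq n).measurableEmbedding).mpr hfi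
      have h2 := h1.prod_right_ae
      simp only [cq_apply] at h2
      exact h2
    have e4 : ∫⁻ y0 : ℝ, ∫⁻ a' in Icc (fun _ : Fin n => (1 : ℝ)) (fun _ => 2),
          ∫⁻ x' : Fin n → ℝ,
            ‖T (fun j => al κ (a' j) s) (fun y' => f (Fin.cons y0 y')) x'‖ₑ ^ q
        ≤ ∫⁻ y0 : ℝ, B ^ n * ∫⁻ y' : Fin n → ℝ, ‖f (Fin.cons y0 y')‖ₑ ^ q := by
      refine lintegral_mono_ae ?_
      filter_upwards [hsl] with y0 hy0
      exact ih (fun y' => f (Fin.cons y0 y'))
        (by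
          have hh : Measurable (fun y' : Fin n → ℝ => ((y0, y') : ℝ × (Fin n → ℝ))) :=
            measurable_const.prodMk measurable_id
          exact hf.comp (measurable_cons2.comp hh)) hy0
    refine (mul_le_mul_right e4 B).trans (le_of_eq ?_)
    have hBn : B ^ n ≠ ⊤ := ENNReal.pow_ne_top hBt
    rw [lintegral_const_mul' _ _ hBn, ← lint_cons' _ (hf.enorm.pow_const q), ← mul_assoc, pow_succ,
      mul_comm B (B ^ n)]

end Pool.Agent.W290.BE
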